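import Pool.Agent.helper93.TV.Spec1

/-!
TV (MP_29f1cd_al), row Min: a closest gauge transform exists.
-/

set_option autoImplicit false

namespace Pool.Agent.helper93.TV

open BigOperators Finset

private theorem Min_one {I V : Type} [Fintype I] [DecidableEq I] [Fintype V] [DecidableEq V]
    (D : FD I V) : D.Gau (fun v w => if v = w then 1 else 0) := by
  refine ⟨?_, ?_, ?_⟩
  · intro v w h
    by_cases hvw : v = w
    · subst hvw
      exact ⟨rfl, rfl, rfl⟩
    · exact absurd (if_neg hvw) h
  · intro v w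
    rw [Finset.sum_eq_single v]
    · by_cases hvw : v = w
      · subst hvw
        simp
      · have : ¬ w = v := fun h => hvw h.symm
        simp [hvw, this]
    · intro x _ hx
      have : ¬ v = x := fun h => hx h.symm
      simp [this]
    · intro h
      exact absurd (Finset.mem_univ v) h
  · intro v w
    rw [Finset.sum_eq_single v]
    · by_cases hvw : v = w
      · subst hvw
        simp
      · simp [hvw]
    · intro x _ hx
      simp [hx]
    · intro h
      exact absurd (Finset.mem_univ v) h

private theorem Min_bd {I V : Type} [Fintype I] [DecidableEq I] [Fintype V] [DecidableEq V]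
    (D : FD I V) (u : V → V → ℂ) (hu : D.Gau u) (v x : V) : ‖u v x‖ ≤ 1 := by
  have h1 : ∑ x, ‖u v x‖ ^ 2 = 1 := by
    have h2 := hu.row v v
    rw [if_pos rfl] at h2
    have h3 : ∑ x, u v x * star (u v x) = ((∑ x, ‖u v x‖ ^ 2 : ℝ) : ℂ) := by
      rw [Complex.ofReal_sum]
      apply Finset.sum_congr rfl
      intro x _
      rw [Complex.star_def, Complex.mul_conj, Complex.normSq_eq_norm_sq]
    rw [h3] at h2
    exact_mod_cast h2
  have h4 : ‖u v x‖ ^ 2 ≤ ∑ x, ‖u v x‖ ^ 2 :=
    Finset.single_le_sum (f := fun x => ‖u v x‖ ^ 2) (fun i _ => by positivity) (Finset.mem_univ x)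
  rw [h1] at h4
  have h5 : 0 ≤ ‖u v x‖ := norm_nonneg _
  nlinarith

private theorem Min_closed {I V : Type} [Fintype I] [DecidableEq I] [Fintype V] [DecidableEq V]
    (D : FD I V) : IsClosed {u : V → V → ℂ | D.Gau u} := by
  have e : {u : V → V → ℂ | D.Gau u} =
      (⋂ (v : V) (w : V), {u : V → V → ℂ | u v w ≠ 0 →
        D.s1 v = D.s1 w ∧ D.s2 v = D.s2 w ∧ D.t v = D.t w}) ∩
      (⋂ (v : V) (w : V), {u : V → V → ℂ | ∑ x, u v x * star (u w x) = if v = w then 1 else 0}) ∩
      (⋂ (v : V) (w : V),
        {u : V → V → ℂ | ∑ x, star (u x v) * u x w = if v = w then 1 else 0}) := by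
    ext u
    simp only [Set.mem_setOf_eq, Set.mem_inter_iff, Set.mem_iInter]
    constructor
    · rintro ⟨h1, h2, h3⟩
      exact ⟨⟨h1, h2⟩, h3⟩
    · rintro ⟨⟨h1, h2⟩, h3⟩
      exact ⟨h1, h2, h3⟩
  rw [e]
  refine IsClosed.inter (IsClosed.inter ?_ ?_) ?_
  · refine isClosed_iInter fun v => isClosed_iInter fun w => ?_
    by_cases hP : D.s1 v = D.s1 w ∧ D.s2 v = D.s2 w ∧ D.t v = D.t w
    · have e1 : {u : V → V → ℂ | u v w ≠ 0 →
          D.s1 v = D.s1 w ∧ D.s2 v = D.s2 w ∧ D.t v = D.t w} = Set.univ := by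
        ext u
        simp only [Set.mem_setOf_eq, Set.mem_univ, iff_true]
        exact fun _ => hP
      rw [e1]
      exact isClosed_univ
    · have e1 : {u : V → V → ℂ | u v w ≠ 0 →
          D.s1 v = D.s1 w ∧ D.s2 v = D.s2 w ∧ D.t v = D.t w} = {u : V → V → ℂ | u v w = 0} := by
        ext u
        simp only [Set.mem_setOf_eq]
        constructor
        · intro h
          by_contra h0
          exact hP (h h0)
        · intro h h0
          exact absurd h h0
      rw [e1]
      exact isClosed_eq (by fun_prop) continuous_const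
  · refine isClosed_iInter fun v => isClosed_iInter fun w => ?_
    exact isClosed_eq (by fun_prop) continuous_const
  · refine isClosed_iInter fun v => isClosed_iInter fun w => ?_
    exact isClosed_eq (by fun_prop) continuous_const

theorem Min : Min_stmt := by
  intro I V _ _ _ _ D F F'
  have hcpt : IsCompact {u : V → V → ℂ | D.Gau u} := by
    apply Metric.isCompact_of_isClosed_isBounded (Min_closed D)
    apply (Metric.isBounded_closedBall (x := (0 : V → V → ℂ)) (r := 1)).subset
    intro u hu
    rw [mem_closedBall_zero_iff]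
    rw [pi_norm_le_iff_of_nonneg zero_le_one]
    intro v
    rw [pi_norm_le_iff_of_nonneg zero_le_one]
    intro x
    exact Min_bd D u hu v x
  have hne : {u : V → V → ℂ | D.Gau u}.Nonempty := ⟨_, Min_one D⟩
  have hcont : Continuous (fun u : V → V → ℂ =>
      ∑ α, ∑ γ, ∑ β, ∑ δ, ‖act u F' α γ β δ - F α γ β δ‖ ^ 2) := by
    unfold act
    fun_prop
  obtain ⟨u, hu, hmin⟩ := hcpt.exists_isMinOn hne hcont.continuousOn
  exact ⟨u, hu, fun v hv => hmin hv⟩

end Pool.Agent.helper93.TV
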